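import Pool.Agent.Q66.RX.Stm

set_option autoImplicit false

namespace Pool.Agent.Q94.RX

open Pool.Agent.Q66.RX Topology Filter Set

/-- Polars of neighbourhoods of one in the dual of a reflexive group are compact. -/
theorem t_XR4 (hP : S_POL) : S_XR4 := by
  intro X _ _ _ hX N hN
  obtain ⟨e, he⟩ := hX
  have h1 := hP (PontryaginDual X) N hN
  have h2 : {x : X | ∀ ψ ∈ N, 0 ≤ rr (ψ x)} =
      e ⁻¹' {Φ : PontryaginDual (PontryaginDual X) | ∀ ψ ∈ N, 0 ≤ rr (Φ ψ)} := by
    ext x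
    simp only [mem_setOf_eq, mem_preimage, he]
  rw [h2, e.isCompact_preimage]
  exact h1

end Pool.Agent.Q94.RX
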